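import Pool.Agent.N541.LV.Stm

/-!
# Project LV (helper541), part COV: dilated boxes (helper401)
-/

set_option autoImplicit false

namespace Pool.Agent.N401.LV

open Finset Pool.Agent.N541.LV

lemma mem_box {d : ℕ} {R : Fin d → ℕ} {Q : Fin d → ℤ} :
    Q ∈ N541.LV.box R ↔ ∀ l, -(R l : ℤ) ≤ Q l ∧ Q l ≤ R l := by
  unfold N541.LV.box
  rw [Fintype.mem_piFinset]
  simp only [mem_Icc]

lemma mem_pts {d : ℕ} {Λ : AddSubgroup (Fin d → ℤ)} {R : Fin d → ℕ} {Q : Fin d → ℤ} :
    Q ∈ pts Λ R ↔ (∀ l, -(R l : ℤ) ≤ Q l ∧ Q l ≤ R l) ∧ Q ∈ Λ := by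
  classical
  unfold pts
  rw [Finset.mem_filter, mem_box]

lemma cls {a b r : ℤ} (hr : 1 ≤ r) (h : a / r = b / r) : -r ≤ a - b ∧ a - b ≤ r := by
  have h1 := Int.mul_ediv_add_emod a r
  have h2 := Int.mul_ediv_add_emod b r
  have h3 := Int.emod_nonneg a (by omega : r ≠ 0)
  have h4 := Int.emod_nonneg b (by omega : r ≠ 0)
  have h5 := Int.emod_lt_of_pos a (by omega : 0 < r)
  have h6 := Int.emod_lt_of_pos b (by omega : 0 < r)
  rw [h] at h1
  generalize r * (b / r) = k at h1 h2
  omega

theorem main : COVStm := by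
  classical
  intro d c Λ R hR
  have h1 := Finset.card_le_mul_card_image_of_maps_to (s := pts Λ (fun l => c * R l))
    (t := Fintype.piFinset fun _ : Fin d => Finset.Icc (-(c : ℤ)) (c : ℤ))
    (f := fun Q l => Q l / (R l : ℤ)) ?_ ((pts Λ R).card) ?_
  · refine h1.trans (le_of_eq ?_)
    rw [Fintype.card_piFinset, mul_comm]
    congr 1
    simp only [Int.card_Icc, Finset.prod_const, Finset.card_univ, Fintype.card_fin]
    congr 1
    omega
  · intro Q hQ
    rw [mem_pts] at hQ
    rw [Fintype.mem_piFinset]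
    intro l
    have hl : (1 : ℤ) ≤ R l := by exact_mod_cast hR l
    obtain ⟨h2, h3⟩ := hQ.1 l
    push_cast at h2 h3
    rw [mem_Icc]
    constructor
    · apply Int.le_ediv_of_mul_le (by omega)
      linarith
    · exact Int.ediv_le_of_le_mul (by omega) h3
  · intro b _
    rcases Finset.eq_empty_or_nonempty
      ((pts Λ (fun l => c * R l)).filter fun Q => (fun l => Q l / (R l : ℤ)) = b) with h | ⟨Q0, h0⟩
    · rw [h]
      simp
    · refine Finset.card_le_card_of_injOn (fun Q => Q - Q0) ?_ ?_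
      · intro Q hQ
        rw [mem_coe, mem_filter, mem_pts] at hQ
        rw [mem_filter, mem_pts] at h0
        rw [mem_coe, mem_pts]
        refine ⟨fun l => ?_, Λ.sub_mem hQ.1.2 h0.1.2⟩
        have e : Q l / (R l : ℤ) = Q0 l / (R l : ℤ) := by
          have e1 := congrFun hQ.2 l
          have e2 := congrFun h0.2 l
          exact e1.trans e2.symm
        exact cls (by exact_mod_cast hR l) e
      · intro Q _ Q' _ h
        exact sub_left_injective h

end Pool.Agent.N401.LV
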